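import Pool.Agent.H560R3.GB.Diff
import Pool.Agent.H560R3.GB.Defs

/-!
# Differences of two primes which avoid an arbitrary set of `c N / (log N log log N)` numbers, for almost
all members of arbitrary families of even numbers of nearly minimal additive energy

Definitions used, from `Pool.Agent.H560R3.GB`: `dD D a N`: the number of primes `q ≤ N` with `q + a` prime
such that neither `q` nor `q + a` is in `D`; `sing n = 2 C₂ ∏_{p ∣ n, p > 2} (p - 1) / (p - 2)`, where `C₂`
is the twin prime constant; `energy h x s`: the number of solutions of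
`s (v 1) + ... + s (v h) = s (w 1) + ... + s (w h)` with entries in `{1, ..., x}`; `reps h x s t`: the
number of representations `t = s (v 1) + ... + s (v h)`.

The proof uses the exponential sums of the primes and of their sieve model, the bilinear estimate and
the main term of the starting files `Pool/Agent/H373R2/T7/`.
-/

set_option autoImplicit false

namespace Pool.Agent.Results.MP_70e905_nt.AvoidingSets

open Finset Pool.Agent.H560R3.GB

/-- The number of primes `q ≤ N` with `q + a` prime and `q`, `q + a` outside `D` is within a relative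
error `ε` of the prediction `2 C₂ ∏_{p ∣ a, p > 2} (p - 1) / (p - 2) * N / log ^ 2 N` for `D = ∅`, and, if
`ε < 1`, `a` is the difference of two primes outside `D`. -/
def Holds (ε : ℝ) (D : Finset ℕ) (N a : ℕ) : Prop :=
  |(dD D a N : ℝ) - sing a * (N / Real.log N ^ 2)| ≤ ε * (sing a * (N / Real.log N ^ 2)) ∧
  (ε < 1 → ∃ p q : ℕ, p.Prime ∧ q.Prime ∧ p ∉ D ∧ q ∉ D ∧ q ≤ N ∧ (p : ℤ) - q = a)

open Classical in
/-- The number of `m ∈ {1, ..., x}` for which `Holds` fails for `a = s m`. -/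
noncomputable def exceptions (ε : ℝ) (D : Finset ℕ) (N x : ℕ) (s : ℕ → ℕ) : ℕ :=
  ((Icc 1 x).filter (fun m => ¬ Holds ε D N (s m))).card

lemma energy_eq (h x : ℕ) (s : ℕ → ℕ) :
    Pool.Agent.H373R2.T7.energy h x (fun m => (s m : ℤ)) = energy h x s := by
  unfold energy Pool.Agent.H373R2.T7.energy
  congr 1
  apply filter_congr
  intro q _
  change (∑ i, ((s (q.1 i) : ℕ) : ℤ) = ∑ i, ((s (q.2 i) : ℕ) : ℤ)) ↔ _
  constructor
  · intro h; exact_mod_cast h
  · intro h; exact_mod_cast h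

lemma energy_le (h x J : ℕ) (s : ℕ → ℕ) (hJ : ∀ t, reps h x s t ≤ J) : energy h x s ≤ x ^ h * J := by
  unfold energy
  rw [card_filter, sum_product]
  calc ∑ v ∈ Fintype.piFinset fun _ : Fin h => Icc 1 x, ∑ w ∈ Fintype.piFinset fun _ : Fin h => Icc 1 x,
        (if ∑ i, s (v i) = ∑ i, s (w i) then 1 else 0) ≤
      ∑ _v ∈ Fintype.piFinset fun _ : Fin h => Icc 1 x, J := by
        apply sum_le_sum
        intro v _
        rw [← card_filter]
        refine le_trans (le_of_eq ?_) (hJ (∑ i, s (v i)))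
        unfold reps
        congr 1
        apply filter_congr
        intro w _
        exact eq_comm
    _ = x ^ h * J := by
        rw [sum_const, Fintype.card_piFinset, prod_const, card_univ, Fintype.card_fin, Nat.card_Icc,
          smul_eq_mul, Nat.add_sub_cancel]

theorem first (h B C U : ℕ) (ε : ℝ) (hε : 0 < ε) :
    ∃ c : ℝ, 0 < c ∧ ∃ N₀ : ℕ, ∀ N : ℕ, N₀ ≤ N → ∀ D : Finset ℕ,
      (D.card : ℝ) ≤ c * (N / (Real.log N * Real.log (Real.log N))) → ∀ (x : ℕ) (s : ℕ → ℕ),
      (∀ m ∈ Icc 1 x, Even (s m) ∧ 1 ≤ s m ∧ s m ≤ B * N) →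
      (energy h x s : ℝ) * N ≤ Real.log N ^ C * (x : ℝ) ^ (2 * h) →
      (exceptions ε D N x s : ℝ) ≤ x / Real.log N ^ U := by
  classical
  obtain ⟨c, hc, N₀, h0⟩ := diff_main h B C U ε hε
  obtain ⟨N₁, h1⟩ := Pool.Agent.H373R2.T7.ev_L' 1
  refine ⟨c, hc, N₀ + N₁ + 3, fun N hN D hD x s hs hE => ?_⟩
  have hL := h1 N (by omega)
  obtain ⟨S, h1, h2⟩ := h0 N (by omega) D hD x s hs (by rw [energy_eq]; exact hE)
  refine le_trans ?_ h1
  unfold exceptions
  have h3 : (Icc 1 x).filter (fun m => ¬ Holds ε D N (s m)) ⊆ S := by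
    intro m hm
    rw [mem_filter] at hm
    by_contra hc
    apply hm.2
    obtain ⟨h4, h5⟩ := h2 m hm.1 hc
    refine ⟨h5, fun hε1 => ?_⟩
    have hN0 : (0 : ℝ) < N := by exact_mod_cast (by omega : 0 < N)
    have h6 : 0 < sing (s m) * (N / Real.log N ^ 2) := by
      have : 0 < sing (s m) := by linarith
      positivity
    have h7 : (0 : ℝ) < (dD D (s m) N : ℝ) := by
      have h8 := (abs_le.1 h5).1
      have h9 : ε * (sing (s m) * (N / Real.log N ^ 2)) < 1 * (sing (s m) * (N / Real.log N ^ 2)) :=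
        mul_lt_mul_of_pos_right hε1 h6
      linarith
    have h10 : 0 < dD D (s m) N := by exact_mod_cast h7
    unfold dD at h10
    obtain ⟨q, hq⟩ := card_pos.1 h10
    rw [mem_filter, mem_Icc] at hq
    refine ⟨q + s m, q, hq.2.2.1, hq.2.1, hq.2.2.2.2, hq.2.2.2.1, hq.1.2, ?_⟩
    push_cast
    ring
  exact_mod_cast card_le_card (by convert h3)

/-- Let `h`, `B`, `C`, `U` and `ε > 0` be fixed. There is a `c > 0` such that for all large `N` the following
holds for all sets `D` of at most `c N / (log N log log N)` natural numbers and all families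
`s 1, ..., s x` of positive even integers in `[1, B N]`:

* if the additive energy of order `h` of the family is at most `log ^ C N` times `x ^ (2 h) / N`, then for all
  but at most `x / log ^ U N` of its members `a` the number of primes `q ≤ N` with `q + a` prime and `q`,
  `q + a` outside `D` is `(1 + O(ε)) 2 C₂ ∏_{p ∣ a, p > 2} (p - 1) / (p - 2) * N / log ^ 2 N` (with an implied
  constant `1`), and `a` is the difference of two primes outside `D` if `ε < 1`;
* in particular this holds if no integer has more than `J` representations as a sum of `h` members (a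
  `B_h[J]`-family) and `x ^ h ≥ N / log ^ C N` (`c` may depend on `J` here). -/
theorem result (h B C U : ℕ) (ε : ℝ) (hε : 0 < ε) :
    (∃ c : ℝ, 0 < c ∧ ∃ N₀ : ℕ, ∀ N : ℕ, N₀ ≤ N → ∀ D : Finset ℕ,
      (D.card : ℝ) ≤ c * (N / (Real.log N * Real.log (Real.log N))) → ∀ (x : ℕ) (s : ℕ → ℕ),
      (∀ m ∈ Icc 1 x, Even (s m) ∧ 1 ≤ s m ∧ s m ≤ B * N) →
      (energy h x s : ℝ) * N ≤ Real.log N ^ C * (x : ℝ) ^ (2 * h) →
      (exceptions ε D N x s : ℝ) ≤ x / Real.log N ^ U) ∧
    (∀ J : ℕ, ∃ c : ℝ, 0 < c ∧ ∃ N₀ : ℕ, ∀ N : ℕ, N₀ ≤ N → ∀ D : Finset ℕ,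
      (D.card : ℝ) ≤ c * (N / (Real.log N * Real.log (Real.log N))) → ∀ (x : ℕ) (s : ℕ → ℕ),
      (∀ m ∈ Icc 1 x, Even (s m) ∧ 1 ≤ s m ∧ s m ≤ B * N) →
      (∀ t, reps h x s t ≤ J) → (N : ℝ) ≤ Real.log N ^ C * (x : ℝ) ^ h →
      (exceptions ε D N x s : ℝ) ≤ x / Real.log N ^ U) := by
  refine ⟨first h B C U ε hε, fun J => ?_⟩
  obtain ⟨c, hc, N₀, h0⟩ := first h B (C + 1) U ε hε
  obtain ⟨N₁, h1⟩ := Pool.Agent.H373R2.T7.ev_L' (J + 1)
  refine ⟨c, hc, N₀ + N₁ + 1, fun N hN D hD x s hs hJ hx => ?_⟩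
  apply h0 N (by omega) D hD x s hs
  have hL := h1 N (by omega)
  have hJ0 : (0 : ℝ) ≤ J := Nat.cast_nonneg _
  have hN0 : (0 : ℝ) ≤ N := Nat.cast_nonneg _
  have hx0 : (0 : ℝ) ≤ (x : ℝ) ^ h := by positivity
  have h2 : (energy h x s : ℝ) ≤ (x : ℝ) ^ h * J := by exact_mod_cast energy_le h x J s hJ
  have hL0 : 0 ≤ Real.log N := by linarith
  calc (energy h x s : ℝ) * N ≤ ((x : ℝ) ^ h * J) * (Real.log N ^ C * (x : ℝ) ^ h) :=
        mul_le_mul h2 hx hN0 (mul_nonneg hx0 hJ0)
    _ = J * (Real.log N ^ C * (x : ℝ) ^ (2 * h)) := by ring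
    _ ≤ Real.log N * (Real.log N ^ C * (x : ℝ) ^ (2 * h)) := by
        apply mul_le_mul_of_nonneg_right (by linarith) (by positivity)
    _ = Real.log N ^ (C + 1) * (x : ℝ) ^ (2 * h) := by ring

end Pool.Agent.Results.MP_70e905_nt.AvoidingSets
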