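import Mathlib
import Pool.Agent.H95R2.BG.GapSets
import Pool.Agent.H947R3.GD.Comb

/-!
# The density of the gaps which occur frequently between consecutive primes

`FrequentGap d`: for every `ε > 0` and arbitrarily large `x`, the number `d` is the difference of
at least `x ^ (1 - ε)` pairs of consecutive primes up to `x`.

For every `N ≥ 1` the `k` such that `k N` is a frequent gap have lower (Banach) density at least
`(1 / 48) ∏ (1 - 1 / p)`, the product over the primes `p ≤ 47` not dividing `N`; for `N = 1` this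
is more than `1 / 347` (`density_one`).
-/

set_option autoImplicit false

namespace Pool.Agent.Results.MP_70e905_nt.DensityOfGaps

/-- for every `ε > 0` and arbitrarily large `x`, at least `x ^ (1 - ε)` of the primes up to `x` are
followed by a prime gap of length exactly `d` -/
def FrequentGap (d : ℕ) : Prop :=
  ∀ ε : ℝ, 0 < ε → ∃ᶠ x : ℝ in Filter.atTop,
    x ^ (1 - ε) ≤ (Set.ncard {n : ℕ | (Nat.nth Nat.Prime n : ℝ) ≤ x ∧
      Nat.nth Nat.Prime (n + 1) - Nat.nth Nat.Prime n = d} : ℝ)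

/-- the primes `p ≤ 47` not dividing `N` -/
def PN (N : ℕ) : Finset ℕ := (Finset.range 48).filter (fun p => p.Prime ∧ ¬ p ∣ N)

theorem exists_class (p : ℕ) (hp : p.Prime) (h49 : 49 < p) (a : Fin 49 → ℤ) :
    ∃ r : ℤ, ∀ i, ¬ (p : ℤ) ∣ r + a i := by
  classical
  have hp0 : (p : ℤ) ≠ 0 := by exact_mod_cast hp.ne_zero
  have hcard : ((Finset.univ : Finset (Fin 49)).image (fun i => (a i % p).toNat)).card <
      (Finset.range p).card := by
    rw [Finset.card_range]
    exact lt_of_le_of_lt Finset.card_image_le (by simpa using h49)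
  obtain ⟨c, hc, hcn⟩ := Finset.exists_mem_notMem_of_card_lt_card hcard
  refine ⟨-c, fun i hd => hcn ?_⟩
  rw [neg_add_eq_sub] at hd
  rw [Finset.mem_image]
  refine ⟨i, Finset.mem_univ _, ?_⟩
  have h3 : a i % p = (c : ℤ) % p := Int.ModEq.symm ((Int.modEq_iff_dvd).mpr hd)
  rw [h3, Int.emod_eq_of_lt (by positivity) (by exact_mod_cast Finset.mem_range.mp hc)]
  simp

theorem pair (N : ℕ) (hN : 0 < N) (S : Finset ℕ)
    (hS : ∀ s ∈ S, (∏ p ∈ PN N, p : ℕ).Coprime s) (hc : S.card = 48 + 1) :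
    ∃ a ∈ S, ∃ b ∈ S, a < b ∧ FrequentGap ((b - a) * N) := by
  set f := S.orderEmbOfFin hc with hf
  have hmem : ∀ i, f i ∈ S := fun i => Finset.orderEmbOfFin_mem S hc i
  obtain ⟨i, j, hij, h⟩ := Pool.Agent.H95R2.BG.gap_of_admissible
    (fun i : Fin 49 => (N : ℤ) * (f i : ℕ)) (by
      intro i j hij
      have h1 : (N : ℤ) * (f i : ℕ) = N * (f j : ℕ) := hij
      have h2 : ((f i : ℕ) : ℤ) = (f j : ℕ) := mul_left_cancel₀ (by exact_mod_cast hN.ne') h1
      exact f.injective (by exact_mod_cast h2)) (by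
      intro p hp
      by_cases hpN : p ∣ N
      · refine ⟨1, fun i hdvd => ?_⟩
        have h1 : (p : ℤ) ∣ (N : ℤ) * (f i : ℕ) := Dvd.dvd.mul_right (by exact_mod_cast hpN) _
        have h2 : (p : ℤ) ∣ 1 := (Int.dvd_iff_dvd_of_dvd_add hdvd).mpr h1
        have h3 : (p : ℕ) ∣ 1 := by exact_mod_cast h2
        exact hp.one_lt.ne' (Nat.dvd_one.mp h3)
      · by_cases h48 : p < 48
        · refine ⟨0, fun i hdvd => ?_⟩
          rw [zero_add] at hdvd
          have h1 : p ∣ N * f i := by exact_mod_cast hdvd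
          have h2 : p ∣ f i := (hp.dvd_mul.1 h1).resolve_left hpN
          have h3 : p ∣ ∏ p ∈ PN N, p :=
            Finset.dvd_prod_of_mem (fun p => p) (Finset.mem_filter.2 ⟨Finset.mem_range.2 h48, hp, hpN⟩)
          have h4 : p ∣ 1 := by
            rw [← Nat.Coprime.gcd_eq_one (hS _ (hmem i))]
            exact Nat.dvd_gcd h3 h2
          exact hp.one_lt.ne' (Nat.dvd_one.mp h4)
        · apply exists_class p hp
          by_contra hcon
          have : p = 48 ∨ p = 49 := by omega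
          rcases this with rfl | rfl <;> revert hp <;> norm_num)
  have hlt : f i < f j := by
    have h1 : (N : ℤ) * (f i : ℕ) < N * (f j : ℕ) := hij
    have h2 : ((f i : ℕ) : ℤ) < (f j : ℕ) := lt_of_mul_lt_mul_left h1 (by positivity)
    exact_mod_cast h2
  refine ⟨f i, hmem i, f j, hmem j, hlt, fun ε hε => ?_⟩
  have h2 := h ε hε
  have hset : ∀ x : ℝ, Pool.Agent.H95R2.BG.gapSet ((N : ℤ) * (f j : ℕ) - (N : ℤ) * (f i : ℕ)) x =
      {n : ℕ | (Nat.nth Nat.Prime n : ℝ) ≤ x ∧
        Nat.nth Nat.Prime (n + 1) - Nat.nth Nat.Prime n = (f j - f i) * N} := by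
    intro x
    ext n
    have hlt' : Nat.nth Nat.Prime n < Nat.nth Nat.Prime (n + 1) :=
      Nat.nth_strictMono Nat.infinite_setOfPred_prime (Nat.lt_succ_self n)
    simp only [Pool.Agent.H95R2.BG.gapSet, Set.mem_ofPred_eq, and_congr_right_iff]
    intro _
    have e : (((f j - f i) * N : ℕ) : ℤ) = (N : ℤ) * (f j : ℕ) - (N : ℤ) * (f i : ℕ) := by
      rw [Nat.cast_mul, Nat.cast_sub hlt.le]
      ring
    omega
  simp only [hset] at h2
  exact h2

theorem density_multiples (N : ℕ) (hN : 0 < N) : ∃ C : ℝ, ∀ x T : ℕ,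
    (1 / 48) * (∏ p ∈ (Finset.range 48).filter (fun p => p.Prime ∧ ¬ p ∣ N), (1 - 1 / (p : ℝ))) * T - C ≤
      (Set.ncard {k : ℕ | x < k ∧ k ≤ x + T ∧ FrequentGap (k * N)} : ℝ) := by
  classical
  have hP : ∀ p ∈ PN N, p.Prime := fun p hp => (Finset.mem_filter.1 hp).2.1
  have hW : 0 < ∏ p ∈ PN N, p := Finset.prod_pos fun p hp => (hP p hp).pos
  obtain ⟨C, hC⟩ := Pool.Agent.H947R3.GD.density (fun d => FrequentGap (d * N)) 48 (∏ p ∈ PN N, p)
    (by norm_num) hW (fun S hS hc => pair N hN S hS hc)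
  refine ⟨C, fun x T => ?_⟩
  have h := hC x T
  rw [Pool.Agent.H947R3.GD.totient_prod_primes _ hP] at h
  have hset : {k : ℕ | x < k ∧ k ≤ x + T ∧ FrequentGap (k * N)} =
      (((Finset.Ioc x (x + T)).filter (fun t => FrequentGap (t * N)) : Finset ℕ) : Set ℕ) := by
    ext k
    simp only [Set.mem_ofPred_eq, Finset.coe_filter, Finset.mem_Ioc, and_assoc]
  rw [hset, Set.ncard_coe_finset]
  have e : (1 / ((48 : ℕ) : ℝ)) = 1 / 48 := by norm_num
  rw [e] at h
  exact h

theorem prod_one : (∏ p ∈ (Finset.range 48).filter (fun p => p.Prime ∧ ¬ p ∣ 1), (1 - 1 / (p : ℝ))) >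
    48 / (347 - 1 / 2) := by
  have h : (Finset.range 48).filter (fun p => p.Prime ∧ ¬ p ∣ 1) =
      {2, 3, 5, 7, 11, 13, 17, 19, 23, 29, 31, 37, 41, 43, 47} := by decide +kernel
  rw [h]
  norm_num

/-- `N = 1`: every long interval contains more than one frequent gap per `347` integers -/
theorem density_one : ∀ᶠ T : ℕ in Filter.atTop, ∀ x : ℕ,
    (T : ℝ) / 347 ≤ (Set.ncard {d : ℕ | x < d ∧ d ≤ x + T ∧ FrequentGap d} : ℝ) := by
  obtain ⟨C, hC⟩ := density_multiples 1 one_pos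
  have hprod := prod_one
  set π := (∏ p ∈ (Finset.range 48).filter (fun p => p.Prime ∧ ¬ p ∣ 1), (1 - 1 / (p : ℝ))) with hπ
  have hδ : (1 : ℝ) / 347 < (1 / 48) * π := by
    have : (48 : ℝ) / 347 < 48 / (347 - 1 / 2) := by norm_num
    linarith
  have hev : ∀ᶠ T : ℕ in Filter.atTop, C / ((1 / 48) * π - 1 / 347) ≤ (T : ℝ) :=
    tendsto_natCast_atTop_atTop.eventually_ge_atTop _
  filter_upwards [hev] with T hT x
  have h := hC x T
  simp only [mul_one] at h
  refine le_trans ?_ h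
  rw [div_le_iff₀ (by linarith)] at hT
  linarith

/-- the `k` for which `k N` is a frequent gap, in every interval -/
theorem result (N : ℕ) (hN : 0 < N) : ∃ C : ℝ, ∀ x T : ℕ,
    (1 / 48) * (∏ p ∈ (Finset.range 48).filter (fun p => p.Prime ∧ ¬ p ∣ N), (1 - 1 / (p : ℝ))) * T - C ≤
      (Set.ncard {k : ℕ | x < k ∧ k ≤ x + T ∧ FrequentGap (k * N)} : ℝ) :=
  density_multiples N hN

end Pool.Agent.Results.MP_70e905_nt.DensityOfGaps
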