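import Mathlib
import Pool.Agent.H95R2.BG.GapSets
import Pool.Agent.H672R3.SimGaps

/-!
# Simultaneous differences of primes: the scales `k` with `k F` in the set of prime gaps

`FrequentGap d`: for every `ε > 0` and arbitrarily large `x`, the number `d` is the difference of
at least `x ^ (1 - ε)` pairs of consecutive primes up to `x`.

* Every set of `319` integers contains two whose distance is a frequent gap.
* For all `m` there is `C` such that for any `m` injective maps `f_1, ..., f_m` from a set with at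
  least `C` elements to `ℤ` there are `x ≠ y` such that all `|f_i(x) - f_i(y)|` are frequent gaps;
  on an infinite set this can be achieved for all pairs of distinct elements of an infinite subset.
* For every finite set `F` of positive integers, the set of the `k` such that all `k r`, `r` in `F`,
  are frequent gaps is syndetic, and for every `N ≥ 1` it contains a multiple `k N` with `k`
  bounded in terms of `F`.

The first item (Maynard's theorem for admissible 49-tuples, `DHL[49,2]`, with consecutive primes)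
is taken from the library of the starting repository; the other items follow by Ramsey's theorem.
-/

set_option autoImplicit false

namespace Pool.Agent.Results.MP_70e905_nt.SimultaneousDifferences

/-- for every `ε > 0` and arbitrarily large `x`, at least `x ^ (1 - ε)` of the primes up to `x` are
followed by a prime gap of length exactly `d` -/
def FrequentGap (d : ℕ) : Prop :=
  ∀ ε : ℝ, 0 < ε → ∃ᶠ x : ℝ in Filter.atTop,
    x ^ (1 - ε) ≤ (Set.ncard {n : ℕ | (Nat.nth Nat.Prime n : ℝ) ≤ x ∧
      Nat.nth Nat.Prime (n + 1) - Nat.nth Nat.Prime n = d} : ℝ)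

open Pool.Agent.H672R3.Sim in
theorem deltaStar : DeltaStar FrequentGap 319 := by
  intro S hS
  obtain ⟨a, ha, b, hb, hab, h⟩ := Pool.Agent.H95R2.BG.difference_gap S hS
  refine ⟨a, ha, b, hb, hab.ne, fun ε hε => ?_⟩
  have h2 := h ε hε
  have hset : ∀ x : ℝ, Pool.Agent.H95R2.BG.gapSet (b - a) x =
      {n : ℕ | (Nat.nth Nat.Prime n : ℝ) ≤ x ∧
        Nat.nth Nat.Prime (n + 1) - Nat.nth Nat.Prime n = (a - b).natAbs} := by
    intro x
    ext n
    have hlt : Nat.nth Nat.Prime n < Nat.nth Nat.Prime (n + 1) :=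
      Nat.nth_strictMono Nat.infinite_setOfPred_prime (Nat.lt_succ_self n)
    simp only [Pool.Agent.H95R2.BG.gapSet, Set.mem_ofPred_eq, and_congr_right_iff]
    intro _
    omega
  simp only [hset] at h2
  exact h2

theorem result :
    -- every set of 319 integers has two elements whose distance is a frequent gap
    (∀ S : Finset ℤ, 319 ≤ S.card →
      ∃ a ∈ S, ∃ b ∈ S, a ≠ b ∧ FrequentGap (a - b).natAbs) ∧
    -- simultaneously for finitely many injective maps
    (∀ m : ℕ, ∃ C : ℕ, ∀ (X : Type) (S : Finset X) (f : Fin m → X → ℤ),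
      (∀ i, Function.Injective (f i)) → C ≤ S.card →
        ∃ x ∈ S, ∃ y ∈ S, x ≠ y ∧ ∀ i, FrequentGap (f i x - f i y).natAbs) ∧
    (∀ (m : ℕ) (X : Type) [Infinite X] (f : Fin m → X → ℤ), (∀ i, Function.Injective (f i)) →
      ∃ Y : Set X, Y.Infinite ∧
        ∀ x ∈ Y, ∀ y ∈ Y, x ≠ y → ∀ i, FrequentGap (f i x - f i y).natAbs) ∧
    -- dilates of a finite set
    (∀ F : Finset ℕ, 0 ∉ F → ∃ C : ℕ,
      (∀ N : ℕ, 1 ≤ N → ∃ k : ℕ, 1 ≤ k ∧ k ≤ C ∧ ∀ r ∈ F, FrequentGap (k * N * r)) ∧
      (∀ x : ℕ, ∃ k : ℕ, x < k ∧ k ≤ x + C ∧ ∀ r ∈ F, FrequentGap (k * r))) := by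
  refine ⟨deltaStar, Pool.Agent.H672R3.Sim.sim deltaStar,
    Pool.Agent.H672R3.Sim.sim_inf deltaStar, fun F hF => ?_⟩
  obtain ⟨C, hC⟩ := Pool.Agent.H672R3.Sim.dil deltaStar F hF
  obtain ⟨L, hL⟩ := Pool.Agent.H672R3.Sim.add_synd hC
  refine ⟨max C L, fun N hN => ?_, fun x => ?_⟩
  · obtain ⟨k, hk1, hk2, hk⟩ := Pool.Agent.H672R3.Sim.mult_synd hC N hN
    exact ⟨k, hk1, hk2.trans (le_max_left _ _), hk⟩
  · obtain ⟨k, hk1, hk2, hk⟩ := hL x
    exact ⟨k, hk1, hk2.trans (Nat.add_le_add_left (le_max_right _ _) _), hk⟩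

end Pool.Agent.Results.MP_70e905_nt.SimultaneousDifferences
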