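import Pool.Agent.H441R4.GB.Plus

/-!
Differences `a = m q - p` of primes with a small multiplier: for all `a ≤ N` with at most
`N^(1 - 2ε) (log N)^O(1)` exceptions, for a positive proportion of the primes `p ≤ N`, `p + a` is a
prime multiplied by some `m ≤ 2 N^ε`.
-/

set_option autoImplicit false

namespace Pool.Agent.Results.MP_70e905_nt.SmallMultiplierDifferences

open Finset

/-- `π(N)`: the number of primes `p ≤ N` -/
def primePi (N : ℕ) : ℕ := ((Icc 1 N).filter (fun p : ℕ => p.Prime)).card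

open Classical in
/-- the primes `p ≤ N` such that `p + a = m q` with a prime `q` and `1 ≤ m ≤ 2 N^ε` -/
noncomputable def goodPrimes (ε : ℝ) (N a : ℕ) : Finset ℕ :=
  (Icc 1 N).filter (fun p => p.Prime ∧ ∃ m q : ℕ, q.Prime ∧ 1 ≤ m ∧
    (m : ℝ) ≤ 2 * (N : ℝ) ^ ε ∧ p + a = m * q)

open Classical in
/-- the `1 ≤ a ≤ N` for which there are fewer than `(ε/8) π(N)` such primes `p` -/
noncomputable def exceptional (ε : ℝ) (N : ℕ) : Finset ℕ :=
  (Icc 1 N).filter (fun a : ℕ => ((goodPrimes ε N a).card : ℝ) < ε / 8 * (primePi N : ℝ))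

/-- **Differences of primes with a small multiplier.** For `0 < ε ≤ 1/2`, for all `1 ≤ a ≤ N` with at
most `C N^(1 - 2ε) (log N)^B` exceptions, at least `(ε/8) π(N)` of the primes `p ≤ N` satisfy
`a = m q - p` with a prime `q` and `1 ≤ m ≤ 2 N^ε`. -/
theorem result (ε : ℝ) (hε : 0 < ε) (hε1 : ε ≤ 1 / 2) : ∃ B C : ℝ, ∀ N : ℕ, 3 ≤ N →
    ((exceptional ε N).card : ℝ) ≤ C * (N : ℝ) ^ (1 - 2 * ε) * Real.log N ^ B :=
  Pool.Agent.H441R4.GBP.count ε hε hε1

end Pool.Agent.Results.MP_70e905_nt.SmallMultiplierDifferences
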